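import Pool.Agent.helper36.HK.SpecN

/-!
# Project fi, row GBB: the box and the cells differ on few points
-/

set_option autoImplicit false

open Finset

noncomputable section

namespace Pool.Agent.FI

open scoped Classical in
theorem GBB_FF (hSIZ : SIZ_stmt) (u : ℕ) (z : ℤ × ℤ) : z ∈ FF u ↔ Fd z ∧ nn z ≤ u := by
  constructor
  · intro h
    unfold FF at h
    exact (Finset.mem_filter.1 h).2
  · rintro ⟨h1, h2⟩
    obtain ⟨-, -, -, h3, -⟩ := hSIZ z h1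
    unfold FF at h3 ⊢
    replace h3 := Finset.mem_filter.1 h3
    refine Finset.mem_filter.2 ⟨?_, h1, h2⟩
    obtain ⟨h4, -, -⟩ := h3
    rw [Finset.mem_product, Finset.mem_Icc, Finset.mem_Icc] at h4 ⊢
    have h5 : (nn z : ℤ) ≤ u := by exact_mod_cast h2
    obtain ⟨⟨a1, a2⟩, a3, a4⟩ := h4
    exact ⟨⟨by linarith, by linarith⟩, by linarith, by linarith⟩

/-- the common domain of the two sums -/
def GBB_S (x d : ℕ) : Finset (ℤ × ℤ) :=
  {z ∈ FF (32 * x ^ 2) | N8 z < 0 ∧ (nn z).Prime ∧ (d : ℤ) ∣ z.2}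

theorem GBB_mem_S (hSIZ : SIZ_stmt) (x d : ℕ) (z : ℤ × ℤ) :
    z ∈ GBB_S x d ↔ Fd z ∧ nn z ≤ 32 * x ^ 2 ∧ N8 z < 0 ∧ (nn z).Prime ∧ (d : ℤ) ∣ z.2 := by
  unfold GBB_S
  rw [Finset.mem_filter, GBB_FF hSIZ, and_assoc]

theorem GBB_Fd (z : ℤ × ℤ) (h : Fd z) (hN : N8 z < 0) : |z.1| < 2 * z.2 := by
  obtain ⟨-, h1 | h1⟩ := h
  · exfalso
    unfold N8 at hN
    have h2 : 0 ≤ |z.2| := abs_nonneg _
    have h3 : |z.2| ^ 2 = z.2 ^ 2 := sq_abs _
    nlinarith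
  · exact h1

theorem GBB_sum1 (hSIZ : SIZ_stmt) (x A d : ℕ) (hAx : A ≤ x) :
    ∑ ζ ∈ PZ x A with ((nn ζ).Prime ∧ (d : ℤ) ∣ ζ.2), Real.log (nn ζ) =
      ∑ z ∈ GBB_S x d, Real.log (nn z) * wbx x A z := by
  have e1 : (PZ x A).filter (fun ζ => (nn ζ).Prime ∧ (d : ℤ) ∣ ζ.2) =
      (GBB_S x d).filter (fun z => 0 < z.1 ∧ z.1 ≤ (A : ℤ) ∧ (x : ℤ) < z.2 ∧ z.2 ≤ 2 * (x : ℤ)) := by
    ext z
    have hAx' : (A : ℤ) ≤ x := by exact_mod_cast hAx
    have hA0 : (0 : ℤ) ≤ A := by positivity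
    rw [Finset.mem_filter, Finset.mem_filter, GBB_mem_S hSIZ]
    unfold PZ
    rw [Finset.mem_filter, Finset.mem_product, Finset.mem_Icc, Finset.mem_Ioc]
    constructor
    · rintro ⟨⟨⟨⟨h1, h2⟩, h3, h4⟩, h5, -⟩, h7, h8⟩
      have hN : N8 z < 0 := by
        unfold N8
        nlinarith
      have hle : ((nn z : ℕ) : ℤ) ≤ 32 * (x : ℤ) ^ 2 := by
        unfold nn
        rw [Int.natCast_natAbs, abs_of_neg hN]
        unfold N8
        nlinarith
      refine ⟨⟨⟨h5, Or.inr ?_⟩, by exact_mod_cast hle, hN, h7, h8⟩, by linarith, h2, h3, h4⟩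
      rw [abs_of_pos (by linarith)]
      linarith
    · rintro ⟨⟨h1, -, hN, h7, h8⟩, h2, h3, h4, h5⟩
      refine ⟨⟨⟨⟨by linarith, h3⟩, h4, h5⟩, h1.1, ?_⟩, h7, h8⟩
      rw [Int.isCoprime_iff_gcd_eq_one]
      by_contra hg
      obtain ⟨q, hq, hqg⟩ := Nat.exists_prime_and_dvd hg
      have d1 : (q : ℤ) ∣ z.1 := dvd_trans (by exact_mod_cast hqg) (Int.gcd_dvd_left _ _)
      have d2 : (q : ℤ) ∣ z.2 := dvd_trans (by exact_mod_cast hqg) (Int.gcd_dvd_right _ _)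
      have d3 : (q : ℤ) ^ 2 ∣ N8 z := by
        unfold N8
        exact dvd_sub (pow_dvd_pow_of_dvd d1 2) (Dvd.dvd.mul_left (pow_dvd_pow_of_dvd d2 2) 8)
      have d4 : q ^ 2 ∣ nn z := by
        unfold nn
        have := Int.natAbs_dvd_natAbs.2 d3
        rwa [Int.natAbs_pow, Int.natAbs_natCast] at this
      have d5 : q * q ∣ nn z := by rwa [← pow_two]
      rcases (Nat.dvd_prime h7).1 d5 with h9 | h9
      · have := hq.one_lt
        nlinarith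
      · have h10 : q ∣ nn z := dvd_trans (dvd_mul_right _ _) d5
        rcases (Nat.dvd_prime h7).1 h10 with h11 | h11
        · exact hq.one_lt.ne' h11
        · rw [← h9] at h11
          have := hq.one_lt
          nlinarith
  rw [e1, Finset.sum_filter]
  refine Finset.sum_congr rfl fun z _ => ?_
  unfold wbx
  split_ifs
  · rw [mul_one]
  · rw [mul_zero]

theorem GBB_cu (x A m k : ℕ) : cu2 x A m k ≤ 32 * x ^ 2 := by
  have hc : 1 ≤ Real.cosh ((k : ℝ) / (2 * m)) := Real.one_le_cosh _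
  have hc2 : 1 ≤ Real.cosh ((k : ℝ) / (2 * m)) ^ 2 := one_le_pow₀ hc
  have hx : (0 : ℝ) ≤ (x : ℝ) ^ 2 := sq_nonneg _
  unfold cu2
  refine max_le ?_ ?_
  · unfold cu1
    refine Nat.floor_le_of_le ?_
    push_cast
    rw [div_le_iff₀ (by linarith)]
    nlinarith
  · refine Nat.floor_le_of_le ?_
    refine le_trans (min_le_left _ _) ?_
    push_cast
    rw [div_le_iff₀ (by linarith)]
    nlinarith

theorem GBB_sum2 (hSIZ : SIZ_stmt) (x A m d : ℕ) :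
    ∑ k ∈ Ico 1 m, Gd (cu1 x m k) (cu2 x A m k) (1 / m) (k / m) d =
      ∑ z ∈ GBB_S x d, Real.log (nn z) * wcl x A m z := by
  unfold wcl
  simp only [Finset.mul_sum]
  rw [Finset.sum_comm]
  refine Finset.sum_congr rfl fun k _ => ?_
  unfold Gd
  have e1 : (FF (cu2 x A m k)).filter (fun z => cu1 x m k < nn z ∧ (nn z).Prime ∧ N8 z < 0 ∧
      (d : ℤ) ∣ z.2) = (GBB_S x d).filter (fun z => cu1 x m k < nn z ∧ nn z ≤ cu2 x A m k) := by
    ext z
    rw [Finset.mem_filter, Finset.mem_filter, GBB_mem_S hSIZ, GBB_FF hSIZ]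
    constructor
    · rintro ⟨⟨h1, h2⟩, h3, h4, h5, h6⟩
      exact ⟨⟨h1, h2.trans (GBB_cu x A m k), h5, h4, h6⟩, h3, h2⟩
    · rintro ⟨⟨h1, -, h5, h4, h6⟩, h3, h2⟩
      exact ⟨⟨h1, h2⟩, h3, h4, h5, h6⟩
  rw [e1, Finset.sum_filter]
  refine Finset.sum_congr rfl fun z _ => ?_
  split_ifs
  · rfl
  · rw [mul_zero]

theorem GBB_I (c T : ℝ) (hT : 0 ≤ T) : ((Icc ⌈c - T⌉ ⌊c + T⌋).card : ℝ) ≤ 2 * T + 1 := by
  rw [Int.card_Icc]
  have h1 : (⌊c + T⌋ : ℝ) ≤ c + T := Int.floor_le _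
  have h2 : c - T ≤ (⌈c - T⌉ : ℝ) := Int.le_ceil _
  have h3 : (((⌊c + T⌋ + 1 - ⌈c - T⌉).toNat : ℕ) : ℝ) =
      max ((⌊c + T⌋ : ℝ) + 1 - ⌈c - T⌉) 0 := by
    have := Int.toNat_eq_max (⌊c + T⌋ + 1 - ⌈c - T⌉)
    have h4 : (((⌊c + T⌋ + 1 - ⌈c - T⌉).toNat : ℤ) : ℝ) =
      ((max (⌊c + T⌋ + 1 - ⌈c - T⌉) 0 : ℤ) : ℝ) := by rw [this]
    push_cast at h4
    rw [← h4]
  rw [h3]
  exact max_le (by linarith) (by linarith)

theorem GBB_memI (c T : ℝ) (n : ℤ) (h : |(n : ℝ) - c| ≤ T) : n ∈ Icc ⌈c - T⌉ ⌊c + T⌋ := by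
  rw [Finset.mem_Icc]
  rw [abs_le] at h
  exact ⟨Int.ceil_le.2 (by linarith [h.1]), Int.le_floor.2 (by linarith [h.2])⟩

theorem GBB (hGBA : GBA_stmt) (hSIZ : SIZ_stmt) : GBB_stmt := by
  obtain ⟨C, hC, hG⟩ := hGBA
  refine ⟨364 * (2 * C + 1), by positivity, ?_⟩
  intro x A m d hx hA hAx hm hd
  rw [GBB_sum1 hSIZ x A d hAx, GBB_sum2 hSIZ x A m d, ← Finset.sum_sub_distrib]
  have hx' : (2 : ℝ) ≤ x := by exact_mod_cast hx
  have hm' : (0 : ℝ) < m := by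
    have : (10 : ℝ) ≤ m := by exact_mod_cast hm
    linarith
  set T : ℝ := C * (x / m + 1) with hTdef
  have hq : 0 ≤ (x : ℝ) / m := by positivity
  have hT : 0 ≤ T := by positivity
  have hlog0 : 0 ≤ Real.log x := Real.log_nonneg (by linarith)
  have hlog : ∀ z ∈ GBB_S x d, |Real.log (nn z)| ≤ 7 * Real.log x := by
    intro z hz
    obtain ⟨-, h1, -, h2, -⟩ := (GBB_mem_S hSIZ x d z).1 hz
    have h3 : (1 : ℝ) ≤ nn z := by exact_mod_cast h2.one_lt.le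
    have h4 : (nn z : ℝ) ≤ 32 * (x : ℝ) ^ 2 := by exact_mod_cast h1
    rw [abs_of_nonneg (Real.log_nonneg h3)]
    have h5 : 32 * (x : ℝ) ^ 2 ≤ (x : ℝ) ^ 7 := by
      have : (32 : ℝ) ≤ (x : ℝ) ^ 5 := by
        calc (32 : ℝ) = 2 ^ 5 := by norm_num
          _ ≤ (x : ℝ) ^ 5 := pow_le_pow_left₀ (by norm_num) hx' 5
      nlinarith [sq_nonneg (x : ℝ)]
    calc Real.log (nn z) ≤ Real.log ((x : ℝ) ^ 7) := Real.log_le_log (by linarith) (h4.trans h5)
      _ = 7 * Real.log x := by rw [Real.log_pow]; norm_num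
  have hw : ∀ z, 0 ≤ wbx x A z ∧ wbx x A z ≤ 1 := by
    intro z
    unfold wbx
    split_ifs <;> norm_num
  set J : Finset ℤ := Icc (-(6 * (x : ℤ))) (6 * x) with hJ
  have hJc : ((J.card : ℕ) : ℝ) = 12 * x + 1 := by
    rw [hJ, Int.card_Icc]
    have : (6 * (x : ℤ) + 1 - -(6 * (x : ℤ))).toNat = 12 * x + 1 := by omega
    rw [this]
    push_cast
    ring
  have hJm : ∀ n : ℤ, |(n : ℝ)| ≤ 6 * x → n ∈ J := by
    intro n hn
    have h1 : |n| ≤ 6 * (x : ℤ) := by exact_mod_cast hn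
    rw [abs_le] at h1
    exact Finset.mem_Icc.2 ⟨h1.1, h1.2⟩
  set I : ℝ → Finset ℤ := fun c => Icc ⌈c - T⌉ ⌊c + T⌋ with hI
  set B : Finset (ℤ × ℤ) := (GBB_S x d).filter (fun z => wcl x A m z ≠ wbx x A z) with hB
  have hBsub : B ⊆ (I 0 ×ˢ J) ∪ (I A ×ˢ J) ∪ (J ×ˢ I x) ∪ (J ×ˢ I (2 * x)) := by
    intro z hz
    rw [hB, Finset.mem_filter] at hz
    obtain ⟨hz1, hz2⟩ := hz
    obtain ⟨h1, -, h2, -, -⟩ := (GBB_mem_S hSIZ x d z).1 hz1
    obtain ⟨-, -, h3⟩ := hG x A m hA hAx hm z (GBB_Fd z h1 h2)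
    obtain ⟨h4, h5, h6⟩ := h3 hz2
    have j1 := hJm _ h4
    have j2 := hJm _ h5
    simp only [Finset.mem_union, Finset.mem_product]
    rcases h6 with h6 | h6 | h6 | h6
    · refine Or.inl (Or.inl (Or.inl ⟨GBB_memI 0 T _ (by rwa [sub_zero]), j2⟩))
    · refine Or.inl (Or.inl (Or.inr ⟨GBB_memI A T _ h6, j2⟩))
    · refine Or.inl (Or.inr ⟨j1, GBB_memI x T _ h6⟩)
    · exact Or.inr ⟨j1, GBB_memI (2 * x) T _ h6⟩
  have hBc : (B.card : ℝ) ≤ 4 * ((2 * T + 1) * (12 * x + 1)) := by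
    have h1 : (B.card : ℝ) ≤ (((I 0 ×ˢ J) ∪ (I A ×ˢ J) ∪ (J ×ˢ I x) ∪ (J ×ˢ I (2 * x))).card : ℝ) := by
      exact_mod_cast Finset.card_le_card hBsub
    have h2 : ((((I 0 ×ˢ J) ∪ (I A ×ˢ J) ∪ (J ×ˢ I x) ∪ (J ×ˢ I (2 * x))).card : ℕ) : ℝ) ≤
        ((I 0 ×ˢ J).card + (I A ×ˢ J).card + (J ×ˢ I x).card + (J ×ˢ I (2 * x)).card : ℕ) := by
      exact_mod_cast (Finset.card_union_le _ _).trans (Nat.add_le_add_right
        ((Finset.card_union_le _ _).trans (Nat.add_le_add_right (Finset.card_union_le _ _) _)) _)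
    have h3 : ∀ c : ℝ, ((I c).card : ℝ) ≤ 2 * T + 1 := fun c => GBB_I c T hT
    push_cast [Finset.card_product] at h2
    rw [hJc] at h2
    have hp : (0 : ℝ) ≤ 12 * x + 1 := by positivity
    have i1 := mul_le_mul_of_nonneg_right (h3 0) hp
    have i2 := mul_le_mul_of_nonneg_right (h3 A) hp
    have i3 := mul_le_mul_of_nonneg_left (h3 x) hp
    have i4 := mul_le_mul_of_nonneg_left (h3 (2 * x)) hp
    linarith
  have hmain : |∑ z ∈ GBB_S x d, (Real.log (nn z) * wbx x A z - Real.log (nn z) * wcl x A m z)| ≤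
      B.card * (7 * Real.log x) := by
    calc |∑ z ∈ GBB_S x d, (Real.log (nn z) * wbx x A z - Real.log (nn z) * wcl x A m z)|
        ≤ ∑ z ∈ GBB_S x d, |Real.log (nn z) * wbx x A z - Real.log (nn z) * wcl x A m z| :=
          Finset.abs_sum_le_sum_abs _ _
      _ ≤ ∑ z ∈ GBB_S x d, (if wcl x A m z ≠ wbx x A z then 7 * Real.log x else 0) := by
          refine Finset.sum_le_sum fun z hz => ?_
          split_ifs with h
          · rw [← mul_sub, abs_mul]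
            obtain ⟨h1, -, h2, -, -⟩ := (GBB_mem_S hSIZ x d z).1 hz
            obtain ⟨g1, g2, -⟩ := hG x A m hA hAx hm z (GBB_Fd z h1 h2)
            have g3 : |wbx x A z - wcl x A m z| ≤ 1 := by
              rw [abs_le]
              constructor
              · linarith [(hw z).1]
              · linarith [(hw z).2]
            calc |Real.log (nn z)| * |wbx x A z - wcl x A m z| ≤ (7 * Real.log x) * 1 :=
                  mul_le_mul (hlog z hz) g3 (abs_nonneg _) (by positivity)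
              _ = 7 * Real.log x := mul_one _
          · rw [not_not] at h
            rw [h, sub_self, abs_zero]
      _ = B.card * (7 * Real.log x) := by
          rw [← Finset.sum_filter, Finset.sum_const, nsmul_eq_mul]
  refine hmain.trans ?_
  have h7 : (0 : ℝ) ≤ 7 * Real.log x := by positivity
  calc (B.card : ℝ) * (7 * Real.log x) ≤ (4 * ((2 * T + 1) * (12 * x + 1))) * (7 * Real.log x) :=
        mul_le_mul_of_nonneg_right hBc h7
    _ ≤ (4 * (((2 * C + 1) * (x / m + 1)) * (13 * x))) * (7 * Real.log x) := by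
        refine mul_le_mul_of_nonneg_right ?_ h7
        refine mul_le_mul_of_nonneg_left ?_ (by norm_num)
        refine mul_le_mul ?_ (by linarith) (by positivity) (by positivity)
        rw [hTdef]
        nlinarith
    _ = 364 * (2 * C + 1) * x * (x / m + 1) * Real.log x := by ring

end Pool.Agent.FI
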