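import Pool.Agent.helper95.FI.SpecM

set_option autoImplicit false

open Finset

noncomputable section

namespace Pool.Agent.FI

theorem GD1_ang (w : ℂ) : 0 ≤ ang w ∧ ang w < 2 * Real.pi := by
  unfold ang
  have h1 := Complex.neg_pi_lt_arg w
  have h2 := Complex.arg_le_pi w
  have h3 := Real.pi_pos
  split_ifs with h
  · constructor <;> linarith
  · push Not at h
    constructor <;> linarith

theorem GD1_mem {u : ℕ} {z : ℤ × ℤ} : z ∈ FF u ↔ (z.1 ∈ Icc (-(2 * u : ℤ)) (2 * u) ∧ z.2 ∈ Icc (-(2 * u : ℤ)) (2 * u)) ∧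
    Fd z ∧ nn z ≤ u := by
  classical
  unfold FF
  rw [mem_filter, mem_product]

/-- an element of the fundamental domain of small norm is small -/
theorem GD1_box {u : ℕ} {z : ℤ × ℤ} (hz : Fd z) (h : nn z ≤ u) : z ∈ FF u := by
  obtain ⟨a, l⟩ := z
  rw [GD1_mem]
  refine ⟨?_, hz, h⟩
  obtain ⟨hodd, hz⟩ := hz
  simp only at hodd hz
  have hn : ((nn (a, l) : ℕ) : ℤ) = |a ^ 2 - 8 * l ^ 2| := by
    simp [nn, N8]
  have hu : |a ^ 2 - 8 * l ^ 2| ≤ (u : ℤ) := by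
    rw [← hn]
    exact_mod_cast h
  obtain ⟨hu1, hu2⟩ := abs_le.1 hu
  simp only [mem_Icc]
  have ha0 : a ≠ 0 := by
    rintro rfl
    simp at hodd
  have ha1 : 1 ≤ a ^ 2 := by
    have := sq_nonneg a
    have h2 : a ^ 2 ≠ 0 := pow_ne_zero 2 ha0
    omega
  rcases hz with hz | hz
  · have h1 : 16 * l ^ 2 ≤ a ^ 2 := by
      have h0 : (4 * |l|) ^ 2 ≤ a ^ 2 := by
        have := abs_nonneg l
        nlinarith
      rw [mul_pow, sq_abs] at h0
      linarith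
    have hl := abs_nonneg l
    have ha : a ≤ 2 * u := by
      by_contra hcon
      push Not at hcon
      have : (1 : ℤ) ≤ a := by omega
      nlinarith
    have hll := le_abs_self l
    have hll' := neg_abs_le l
    constructor <;> constructor <;> omega
  · have h1 : a ^ 2 ≤ 4 * l ^ 2 := by
      have h0 : |a| ^ 2 ≤ (2 * l) ^ 2 := by
        have := abs_nonneg a
        nlinarith
      rw [sq_abs] at h0
      linarith
    have ha := abs_nonneg a
    have hl0 : 0 < l := by omega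
    have hl : 4 * l ^ 2 ≤ u := by linarith
    have hl1 : 2 * l ≤ u := by nlinarith
    have hll := le_abs_self a
    have hll' := neg_abs_le a
    constructor <;> constructor <;> omega

/-- the elements used -/
def GD1_T (u₁ u₂ : ℕ) : Finset (ℤ × ℤ) := (FF u₂).filter fun z => u₁ < nn z ∧ (nn z).Prime

theorem GD1_PS (u₁ u₂ : ℕ) (h : u₁ ≤ u₂) (F : ℤ × ℤ → ℂ) :
    PS u₂ F - PS u₁ F = ∑ z ∈ GD1_T u₁ u₂, (Real.log (nn z) : ℂ) * F z := by
  have h1 : FF u₁ = (FF u₂).filter fun z => nn z ≤ u₁ := by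
    ext z
    rw [mem_filter]
    constructor
    · intro hz
      have := GD1_mem.1 hz
      exact ⟨GD1_box this.2.1 (this.2.2.trans h), this.2.2⟩
    · rintro ⟨hz, h2⟩
      exact GD1_box (GD1_mem.1 hz).2.1 h2
  unfold PS GD1_T
  rw [h1, filter_filter, sum_filter, sum_filter, sum_filter, ← sum_sub_distrib]
  refine sum_congr rfl fun z _ => ?_
  by_cases hp : (nn z).Prime
  · by_cases hn : nn z ≤ u₁
    · have hn' : ¬ u₁ < nn z := by omega
      simp [hp, hn]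
    · have hn' : u₁ < nn z := by omega
      simp [hp, hn, hn']
  · simp [hp]

theorem GD1_Gd (u₁ u₂ : ℕ) (h c : ℝ) (D : ℕ) :
    (Gd u₁ u₂ h c D : ℂ) = ∑ z ∈ GD1_T u₁ u₂, (Real.log (nn z) : ℂ) *
      ((tn h c (yy z) : ℂ) * (if N8 z < 0 ∧ (D : ℤ) ∣ z.2 then 1 else 0)) := by
  unfold Gd GD1_T
  rw [sum_filter, sum_filter]
  push_cast
  refine sum_congr rfl fun z _ => ?_
  by_cases h1 : u₁ < nn z
  · by_cases h2 : (nn z).Prime
    · by_cases h3 : N8 z < 0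
      · by_cases h4 : (D : ℤ) ∣ z.2
        · simp [h1, h2, h3, h4]
        · simp [h1, h2, h3, h4]
      · simp [h1, h2, h3]
    · simp [h1, h2]
  · simp [h1]

/-- exchange of sums -/
theorem GD1_swap (T : Finset (ℤ × ℤ)) (J I : Finset ℕ) (k : ℕ) (M : Finset ℤ) (a : ℂ) (b : ℕ → ℂ)
    (cc : ℕ → Fin k → ℤ → ℂ) (Lg : ℤ × ℤ → ℂ) (H : ℕ → Fin k → ℕ → ℤ → ℤ × ℤ → ℂ) :
    a * ∑ j ∈ J, ∑ t : Fin k, ∑ i ∈ I, b i * ∑ m ∈ M, cc j t m * ∑ z ∈ T, Lg z * H j t i m z =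
      ∑ z ∈ T, Lg z * (a * ∑ j ∈ J, ∑ t : Fin k, ∑ i ∈ I, b i * ∑ m ∈ M, cc j t m * H j t i m z) := by
  simp only [mul_sum]
  rw [sum_comm (s := T) (t := J)]
  refine sum_congr rfl fun j _ => ?_
  rw [sum_comm (s := T) (t := (univ : Finset (Fin k)))]
  refine sum_congr rfl fun t _ => ?_
  rw [sum_comm (s := T) (t := I)]
  refine sum_congr rfl fun i _ => ?_
  rw [sum_comm (s := T) (t := M)]
  refine sum_congr rfl fun m _ => ?_
  refine sum_congr rfl fun z _ => ?_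
  ring

/-- the indicator as a sum over characters -/
theorem GD1_ind {d k e : ℕ} {ψ : Fin k → ℤ × ℤ → ℂ} (hd : Odd d) (he : e ≤ 1) (hF : Fam d k ψ) (z : ℤ × ℤ)
    (hz : Nat.Coprime (nn z) d) (h0 : N8 z ≠ 0) :
    1 / (2 ^ e * k * 2 : ℂ) * ∑ j ∈ range (e + 1), ∑ t : Fin k, ∑ i ∈ range 2,
      (-1 : ℂ) ^ i * (ψ t z * (-1) ^ (j * z.2.natAbs) * ((N8 z).sign : ℂ) ^ i) =
        if N8 z < 0 ∧ ((2 ^ e * d : ℕ) : ℤ) ∣ z.2 then 1 else 0 := by
  have hk : (k : ℂ) ≠ 0 := by exact_mod_cast hF.1.ne'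
  have hsum := hF.2.2.1 z hz
  have hfac : ∑ j ∈ range (e + 1), ∑ t : Fin k, ∑ i ∈ range 2,
      (-1 : ℂ) ^ i * (ψ t z * (-1) ^ (j * z.2.natAbs) * ((N8 z).sign : ℂ) ^ i) =
      (∑ j ∈ range (e + 1), (-1 : ℂ) ^ (j * z.2.natAbs)) * ((∑ t : Fin k, ψ t z) *
        ∑ i ∈ range 2, (-1 : ℂ) ^ i * ((N8 z).sign : ℂ) ^ i) := by
    rw [sum_mul]
    refine sum_congr rfl fun j _ => ?_
    rw [sum_mul, mul_sum]
    refine sum_congr rfl fun t _ => ?_
    rw [mul_sum, mul_sum]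
    refine sum_congr rfl fun i _ => ?_
    ring
  have hsg : ∑ i ∈ range 2, (-1 : ℂ) ^ i * ((N8 z).sign : ℂ) ^ i = if N8 z < 0 then 2 else 0 := by
    rw [sum_range_succ, sum_range_succ, sum_range_zero]
    split_ifs with h
    · rw [Int.sign_eq_neg_one_of_neg h]
      push_cast
      norm_num
    · have h' : 0 < N8 z := by omega
      rw [Int.sign_eq_one_of_pos h']
      push_cast
      norm_num
  have hjj : ∑ j ∈ range (e + 1), (-1 : ℂ) ^ (j * z.2.natAbs) = if ((2 ^ e : ℕ) : ℤ) ∣ z.2 then (2 : ℂ) ^ e else 0 := by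
    rcases Nat.le_one_iff_eq_zero_or_eq_one.1 he with rfl | rfl
    · simp
    · rw [sum_range_succ, sum_range_succ, sum_range_zero]
      by_cases h2 : (((2 ^ 1 : ℕ) : ℤ)) ∣ z.2
      · rw [if_pos h2]
        have hev : Even z.2.natAbs := by
          rw [Int.natAbs_even]
          exact (even_iff_two_dvd).2 (by simpa using h2)
        simp [hev.neg_one_pow]
        norm_num
      · rw [if_neg h2]
        have hodd : Odd z.2.natAbs := by
          rw [Int.natAbs_odd, ← Int.not_even_iff_odd]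
          intro hev
          exact h2 (by simpa using (even_iff_two_dvd).1 hev)
        simp [hodd.neg_one_pow]
  rw [hfac, hsg, hsum, hjj]
  have hdv : ((2 ^ e * d : ℕ) : ℤ) ∣ z.2 ↔ ((2 ^ e : ℕ) : ℤ) ∣ z.2 ∧ (d : ℤ) ∣ z.2 := by
    have hcop : IsCoprime ((2 ^ e : ℕ) : ℤ) (d : ℤ) := by
      rw [Nat.isCoprime_iff_coprime]
      exact Nat.Coprime.pow_left _ (Nat.coprime_two_left.2 hd)
    constructor
    · intro h
      push_cast at h ⊢
      exact ⟨(Dvd.intro _ rfl).trans h, (Dvd.intro_left _ rfl).trans h⟩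
    · rintro ⟨h1, h2⟩
      have := hcop.mul_dvd h1 h2
      push_cast at this ⊢
      exact this
  by_cases a1 : N8 z < 0
  · by_cases a2 : ((2 ^ e : ℕ) : ℤ) ∣ z.2
    · by_cases a3 : (d : ℤ) ∣ z.2
      · rw [if_pos a1, if_pos a2, if_pos a3, if_pos ⟨a1, hdv.2 ⟨a2, a3⟩⟩]
        field_simp
      · have hn : ¬ (N8 z < 0 ∧ ((2 ^ e * d : ℕ) : ℤ) ∣ z.2) := fun h => a3 (hdv.1 h.2).2
        rw [if_neg hn, if_neg a3, zero_mul, mul_zero, mul_zero]
    · have hn : ¬ (N8 z < 0 ∧ ((2 ^ e * d : ℕ) : ℤ) ∣ z.2) := fun h => a2 (hdv.1 h.2).1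
      rw [if_neg hn, if_neg a2, zero_mul, mul_zero]
  · have hn : ¬ (N8 z < 0 ∧ ((2 ^ e * d : ℕ) : ℤ) ∣ z.2) := fun h => a1 h.1
    rw [if_neg hn, if_neg a1, mul_zero, mul_zero, mul_zero]

/-- GD1 -/
theorem GD1 (hFOU : FOU_stmt) (hYYB : YYB_stmt) : GD1_stmt := by
  obtain ⟨C, hC, hFou⟩ := hFOU
  refine ⟨C, hC, ?_⟩
  intro d k e ψ hd he hF u₁ u₂ hdu huu h c hh hhc hch K hK
  obtain ⟨_, _, hfour⟩ := hFou h c hh hhc hch
  have hk0 : 0 < k := hF.1
  have hK0 : (0 : ℝ) < K := by exact_mod_cast hK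
  have hhK : 0 < h * K := mul_pos hh hK0
  set α : ℕ → Fin k → ℝ := fun j t => ang (ψ t (3, 1) * (-1) ^ j) with hα
  -- the pointwise estimate
  have hpt : ∀ z ∈ GD1_T u₁ u₂,
      ‖(tn h c (yy z) : ℂ) * (if N8 z < 0 ∧ ((2 ^ e * d : ℕ) : ℤ) ∣ z.2 then 1 else 0) -
        1 / (2 ^ e * k * 2 : ℂ) * ∑ j ∈ range (e + 1), ∑ t : Fin k, ∑ i ∈ range 2, (-1 : ℂ) ^ i *
          ∑ m ∈ Icc (-(K : ℤ)) K, ck h c (fr (α j t) m) * HC (ψ t) j i (fr (α j t) m) z‖ ≤ C / (h * K) := by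
    intro z hz
    rw [GD1_T, mem_filter] at hz
    obtain ⟨hzF, hzu, hzp⟩ := hz
    have hFd := (GD1_mem.1 hzF).2.1
    have hy := hYYB z hFd
    have hcop : Nat.Coprime (nn z) d := by
      rw [Nat.Prime.coprime_iff_not_dvd hzp]
      intro hdv
      have := Nat.le_of_dvd hd.pos hdv
      omega
    have hN0 : N8 z ≠ 0 := by
      intro h0
      rw [nn, h0] at hzp
      simp at hzp
      exact Nat.not_prime_zero hzp
    have hind := GD1_ind hd he hF z hcop hN0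
    set D : ℕ → Fin k → ℂ := fun j t => (tn h c (yy z) : ℂ) -
      ∑ m ∈ Icc (-(K : ℤ)) K, ck h c (fr (α j t) m) * Complex.exp (fr (α j t) m * yy z * Complex.I) with hD
    have hDle : ∀ j t, ‖D j t‖ ≤ C / (h * K) := by
      intro j t
      exact hfour (α j t) (GD1_ang _).1 (GD1_ang _).2 K hK (yy z) hy
    have hinner : ∀ j t i, ∑ m ∈ Icc (-(K : ℤ)) K, ck h c (fr (α j t) m) * HC (ψ t) j i (fr (α j t) m) z =
        (ψ t z * (-1) ^ (j * z.2.natAbs) * ((N8 z).sign : ℂ) ^ i) * ((tn h c (yy z) : ℂ) - D j t) := by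
      intro j t i
      simp only [hD, sub_sub_cancel, mul_sum]
      refine sum_congr rfl fun m _ => ?_
      unfold HC
      ring
    have hmain : (tn h c (yy z) : ℂ) * (if N8 z < 0 ∧ ((2 ^ e * d : ℕ) : ℤ) ∣ z.2 then 1 else 0) -
        1 / (2 ^ e * k * 2 : ℂ) * ∑ j ∈ range (e + 1), ∑ t : Fin k, ∑ i ∈ range 2, (-1 : ℂ) ^ i *
          ∑ m ∈ Icc (-(K : ℤ)) K, ck h c (fr (α j t) m) * HC (ψ t) j i (fr (α j t) m) z =
        1 / (2 ^ e * k * 2 : ℂ) * ∑ j ∈ range (e + 1), ∑ t : Fin k, ∑ i ∈ range 2,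
          (-1 : ℂ) ^ i * (ψ t z * (-1) ^ (j * z.2.natAbs) * ((N8 z).sign : ℂ) ^ i) * D j t := by
      rw [← hind]
      simp only [hinner]
      simp only [mul_sum]
      rw [← sum_sub_distrib]
      refine sum_congr rfl fun j _ => ?_
      rw [← sum_sub_distrib]
      refine sum_congr rfl fun t _ => ?_
      rw [← sum_sub_distrib]
      refine sum_congr rfl fun i _ => ?_
      ring
    rw [hmain, norm_mul]
    have hterm : ∀ j t i, ‖(-1 : ℂ) ^ i * (ψ t z * (-1) ^ (j * z.2.natAbs) * ((N8 z).sign : ℂ) ^ i) * D j t‖ ≤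
        C / (h * K) := by
      intro j t i
      have hψ : ‖ψ t z‖ = 1 := (hF.2.1 t).2.2.2.1 z hcop
      have hs : ‖((N8 z).sign : ℂ)‖ = 1 := by
        rcases lt_or_gt_of_ne hN0 with h1 | h1
        · rw [Int.sign_eq_neg_one_of_neg h1]
          simp
        · rw [Int.sign_eq_one_of_pos h1]
          simp
      rw [norm_mul, norm_mul, norm_mul, norm_mul, norm_pow, norm_pow, norm_pow, hψ, hs]
      simp only [norm_neg, norm_one, one_pow, mul_one, one_mul]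
      exact hDle j t
    have hsum : ‖∑ j ∈ range (e + 1), ∑ t : Fin k, ∑ i ∈ range 2,
        (-1 : ℂ) ^ i * (ψ t z * (-1) ^ (j * z.2.natAbs) * ((N8 z).sign : ℂ) ^ i) * D j t‖ ≤
        (e + 1) * (k * (2 * (C / (h * K)))) := by
      refine (norm_sum_le _ _).trans ?_
      refine (sum_le_sum fun j _ => (norm_sum_le _ _).trans (sum_le_sum fun t _ => (norm_sum_le _ _).trans
        (sum_le_sum fun i _ => hterm j t i))).trans ?_
      simp only [sum_const, card_range, card_univ, Fintype.card_fin, nsmul_eq_mul]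
      push_cast
      exact le_rfl
    have hnorm : ‖(1 / (2 ^ e * k * 2 : ℂ))‖ = 1 / (2 ^ e * k * 2 : ℝ) := by
      rw [norm_div, norm_one, norm_mul, norm_mul, norm_pow, Complex.norm_natCast]
      simp
    rw [hnorm]
    have hk0' : (0 : ℝ) < k := by exact_mod_cast hk0
    have hee : ((e : ℝ) + 1) = 2 ^ e := by
      rcases Nat.le_one_iff_eq_zero_or_eq_one.1 he with rfl | rfl
      · norm_num
      · norm_num
    calc 1 / (2 ^ e * k * 2 : ℝ) * ‖∑ j ∈ range (e + 1), ∑ t : Fin k, ∑ i ∈ range 2,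
        (-1 : ℂ) ^ i * (ψ t z * (-1) ^ (j * z.2.natAbs) * ((N8 z).sign : ℂ) ^ i) * D j t‖
        ≤ 1 / (2 ^ e * k * 2 : ℝ) * ((e + 1) * (k * (2 * (C / (h * K))))) :=
          mul_le_mul_of_nonneg_left hsum (by positivity)
      _ = C / (h * K) := by
          rw [hee]
          field_simp
  -- assembly
  have hbig : 1 / (2 ^ e * k * 2 : ℂ) * ∑ j ∈ range (e + 1), ∑ t : Fin k, ∑ i ∈ range 2, (-1 : ℂ) ^ i *
      ∑ m ∈ Icc (-(K : ℤ)) K, ck h c (fr (α j t) m) *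
        (PS u₂ (HC (ψ t) j i (fr (α j t) m)) - PS u₁ (HC (ψ t) j i (fr (α j t) m))) =
      ∑ z ∈ GD1_T u₁ u₂, (Real.log (nn z) : ℂ) * (1 / (2 ^ e * k * 2 : ℂ) *
        ∑ j ∈ range (e + 1), ∑ t : Fin k, ∑ i ∈ range 2, (-1 : ℂ) ^ i *
          ∑ m ∈ Icc (-(K : ℤ)) K, ck h c (fr (α j t) m) * HC (ψ t) j i (fr (α j t) m) z) := by
    simp only [GD1_PS u₁ u₂ huu]
    exact GD1_swap (GD1_T u₁ u₂) (range (e + 1)) (range 2) k (Icc (-(K : ℤ)) K) (1 / (2 ^ e * k * 2 : ℂ))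
      (fun i => (-1 : ℂ) ^ i) (fun j t m => ck h c (fr (α j t) m)) (fun z => (Real.log (nn z) : ℂ))
      (fun j t i m z => HC (ψ t) j i (fr (α j t) m) z)
  have hlog : ∀ z : ℤ × ℤ, 0 ≤ Real.log (nn z) := fun z => Real.log_natCast_nonneg _
  have hPS1 : ∑ z ∈ GD1_T u₁ u₂, Real.log (nn z) ≤ ‖PS u₂ (fun _ => 1)‖ := by
    have e1 : PS u₂ (fun _ => 1) = ((∑ z ∈ FF u₂ with (nn z).Prime, Real.log (nn z) : ℝ) : ℂ) := by
      unfold PS
      push_cast
      simp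
    rw [e1, Complex.norm_real, Real.norm_of_nonneg (sum_nonneg fun z _ => hlog z)]
    refine sum_le_sum_of_subset_of_nonneg ?_ fun z _ _ => hlog z
    intro z hz
    rw [GD1_T, mem_filter] at hz
    exact mem_filter.2 ⟨hz.1, hz.2.2⟩
  have hfin : ‖(Gd u₁ u₂ h c (2 ^ e * d) : ℂ) - 1 / (2 ^ e * k * 2 : ℂ) * ∑ j ∈ range (e + 1), ∑ t : Fin k,
      ∑ i ∈ range 2, (-1 : ℂ) ^ i * ∑ m ∈ Icc (-(K : ℤ)) K, ck h c (fr (α j t) m) *
        (PS u₂ (HC (ψ t) j i (fr (α j t) m)) - PS u₁ (HC (ψ t) j i (fr (α j t) m)))‖ ≤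
      C / (h * K) * ‖PS u₂ (fun _ => 1)‖ := by
    rw [hbig, GD1_Gd, ← sum_sub_distrib]
    refine (norm_sum_le _ _).trans ?_
    refine (sum_le_sum (g := fun z => C / (h * K) * Real.log (nn z)) fun z hz => ?_).trans ?_
    · rw [← mul_sub, norm_mul, Complex.norm_real, Real.norm_of_nonneg (hlog z), mul_comm]
      exact mul_le_mul_of_nonneg_right (hpt z hz) (hlog z)
    · rw [← mul_sum]
      exact mul_le_mul_of_nonneg_left hPS1 (by positivity)
  exact hfin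

end Pool.Agent.FI
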