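import Pool.Agent.helper95.FI.SpecV

set_option autoImplicit false

open Finset

namespace Pool.Agent.FI

/-- multiples of `g` in `(0, A]` -/
theorem NPR_a (A g : ℕ) (hg : 0 < g) :
    ((((Ioc (0 : ℤ) A).filter fun x => (g : ℤ) ∣ x).card : ℕ) : ℝ) ≤ (A : ℝ) / g := by
  have hg' : (0 : ℤ) < (g : ℤ) := by exact_mod_cast hg
  have h := Int.Ioc_filter_dvd_card (0 : ℤ) (A : ℤ) hg'
  have hq : (((((Ioc (0 : ℤ) A).filter fun x => (g : ℤ) ∣ x).card : ℕ) : ℤ) : ℚ) ≤ (A : ℚ) / g := by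
    rw [h]
    push_cast
    rw [zero_div, Int.floor_zero, Int.cast_zero, sub_zero, max_le_iff]
    exact ⟨Int.floor_le _, by positivity⟩
  have hr : ((((((Ioc (0 : ℤ) A).filter fun x => (g : ℤ) ∣ x).card : ℕ) : ℤ) : ℚ) : ℝ) ≤ (((A : ℚ) / g : ℚ) : ℝ) := by
    exact_mod_cast hq
  push_cast at hr
  exact hr

/-- multiples of `g` in `(x, 2x]` -/
theorem NPR_l (x g : ℕ) (hg : 0 < g) :
    ((((Ioc (x : ℤ) (2 * x)).filter fun l => (g : ℤ) ∣ l).card : ℕ) : ℝ) ≤ (x : ℝ) / g + 1 := by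
  have hg' : (0 : ℤ) < (g : ℤ) := by exact_mod_cast hg
  have h := Int.Ioc_filter_dvd_card (x : ℤ) (2 * x : ℤ) hg'
  have hq : (((((Ioc (x : ℤ) (2 * x)).filter fun l => (g : ℤ) ∣ l).card : ℕ) : ℤ) : ℚ) ≤ (x : ℚ) / g + 1 := by
    rw [h]
    push_cast
    rw [max_le_iff]
    refine ⟨?_, by positivity⟩
    have h1 := Int.floor_le ((2 * (x : ℚ)) / (g : ℚ))
    have h2 := Int.lt_floor_add_one ((x : ℚ) / (g : ℚ))
    have h3 : (2 * (x : ℚ)) / (g : ℚ) = (x : ℚ) / g + (x : ℚ) / g := by ring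
    linarith
  have hr : ((((((Ioc (x : ℤ) (2 * x)).filter fun l => (g : ℤ) ∣ l).card : ℕ) : ℤ) : ℚ) : ℝ) ≤
      (((x : ℚ) / g + 1 : ℚ) : ℝ) := by
    exact_mod_cast hq
  push_cast at hr
  exact hr

/-- NPR -/
theorem NPR : NPR_stmt := by
  classical
  intro x A Z hx hA hZ
  set S := (Icc (1 : ℤ) A ×ˢ Ioc (x : ℤ) (2 * x)).filter
    (fun ζ => ¬ IsCoprime ζ.1 ζ.2 ∧ ∀ g ∈ Icc 1 Z, g.Prime → ¬ (g : ℤ) ∣ ζ.2) with hS
  have hsub : S ⊆ (Ioc Z A).biUnion fun g => ((Ioc (0 : ℤ) A).filter fun a => (g : ℤ) ∣ a) ×ˢ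
      ((Ioc (x : ℤ) (2 * x)).filter fun l => (g : ℤ) ∣ l) := by
    intro ζ hζ
    rw [hS, mem_filter, mem_product, mem_Icc, mem_Ioc] at hζ
    obtain ⟨⟨⟨ha1, ha2⟩, hl⟩, hnc, hr⟩ := hζ
    have hg1 : Int.gcd ζ.1 ζ.2 ≠ 1 := fun h => hnc (Int.isCoprime_iff_gcd_eq_one.2 h)
    obtain ⟨g, hgp, hgd⟩ := Nat.exists_prime_and_dvd hg1
    have hd : (g : ℤ) ∣ (Int.gcd ζ.1 ζ.2 : ℤ) := by exact_mod_cast hgd
    have hda : (g : ℤ) ∣ ζ.1 := hd.trans (Int.gcd_dvd_left ..)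
    have hdl : (g : ℤ) ∣ ζ.2 := hd.trans (Int.gcd_dvd_right ..)
    have hgZ : Z < g := by
      by_contra h
      exact hr g (mem_Icc.2 ⟨hgp.one_le, by omega⟩) hgp hdl
    have hgA : g ≤ A := by
      have := Int.le_of_dvd (by omega) hda
      have h2 : (g : ℤ) ≤ A := this.trans ha2
      exact_mod_cast h2
    rw [mem_biUnion]
    refine ⟨g, mem_Ioc.2 ⟨hgZ, hgA⟩, ?_⟩
    rw [mem_product, mem_filter, mem_filter, mem_Ioc, mem_Ioc]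
    exact ⟨⟨⟨by omega, ha2⟩, hda⟩, ⟨hl, hdl⟩⟩
  have hx0 : (0 : ℝ) < x := by exact_mod_cast hx
  have hZ0 : (0 : ℝ) < Z := by exact_mod_cast hZ
  have hAx : (A : ℝ) ≤ x := by exact_mod_cast hA
  have h1 : (S.card : ℝ) ≤ ∑ g ∈ Ioc Z A, 2 * (x : ℝ) ^ 2 * ((g : ℝ) ^ 2)⁻¹ := by
    refine le_trans (Nat.cast_le.2 ((card_le_card hsub).trans card_biUnion_le)) ?_
    rw [Nat.cast_sum]
    refine sum_le_sum fun g hg => ?_
    rw [mem_Ioc] at hg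
    have hg0 : 0 < g := by omega
    have hg0' : (0 : ℝ) < g := by exact_mod_cast hg0
    have hgx : (g : ℝ) ≤ x := by exact_mod_cast hg.2.trans hA
    rw [card_product]
    push_cast
    have e1 := NPR_a A g hg0
    have e2 := NPR_l x g hg0
    have e3 : (x : ℝ) / g + 1 ≤ 2 * x / g := by
      rw [div_add_one hg0'.ne']
      gcongr
      linarith
    calc ((((Ioc (0 : ℤ) A).filter fun x => (g : ℤ) ∣ x).card : ℕ) : ℝ) *
          ((((Ioc (x : ℤ) (2 * x)).filter fun l => (g : ℤ) ∣ l).card : ℕ) : ℝ)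
        ≤ ((A : ℝ) / g) * (2 * x / g) :=
          mul_le_mul e1 (e2.trans e3) (Nat.cast_nonneg _) (by positivity)
      _ ≤ ((x : ℝ) / g) * (2 * x / g) := by gcongr
      _ = 2 * (x : ℝ) ^ 2 * ((g : ℝ) ^ 2)⁻¹ := by field_simp
  have h2 : ∑ g ∈ Ioc Z A, ((g : ℝ) ^ 2)⁻¹ ≤ (Z : ℝ)⁻¹ := by
    rcases le_or_gt Z A with h | h
    · have := sum_Ioc_inv_sq_le_sub (α := ℝ) (show Z ≠ 0 by omega) h
      have h3 : (0 : ℝ) ≤ (A : ℝ)⁻¹ := by positivity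
      linarith
    · rw [Ioc_eq_empty_of_le h.le, sum_empty]
      positivity
  have h3 : (S.card : ℝ) ≤ 2 * (x : ℝ) ^ 2 / Z := by
    refine h1.trans ?_
    rw [← mul_sum, div_eq_mul_inv]
    exact mul_le_mul_of_nonneg_left h2 (by positivity)
  exact h3

end Pool.Agent.FI
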